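import Pool.Agent.W102.TD.Defs

/-!
# TD-CARRY: exact count of additions with carries
-/

set_option autoImplicit false

namespace Pool.Agent.W160.TD

open Finset Pool.Agent.W102.TD

theorem wt_eq (m i : ℕ) : wt m i = ∑ k ∈ range m, if i.testBit k = true then 1 else 0 := by
  unfold wt
  rw [Finset.card_filter]

theorem wt_zero (i : ℕ) : wt 0 i = 0 := by
  unfold wt
  rw [Finset.range_zero, Finset.filter_empty, Finset.card_empty]

theorem wt_succ (m i' : ℕ) (b : Bool) : wt (m + 1) (b.toNat + 2 * i') = b.toNat + wt m i' := by
  have h1 : (b.toNat + 2 * i') / 2 = i' := by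
    cases b with
    | false => rw [Bool.toNat_false]; omega
    | true => rw [Bool.toNat_true]; omega
  rw [wt_eq, wt_eq, Finset.sum_range_succ', add_comm]
  congr 1
  · rw [Nat.testBit_zero]
    cases b with
    | false =>
      have : (Bool.toNat false + 2 * i') % 2 = 0 := by
        rw [Bool.toNat_false]; omega
      rw [this]; simp
    | true =>
      have : (Bool.toNat true + 2 * i') % 2 = 1 := by
        rw [Bool.toNat_true]; omega
      rw [this]; simp
  · refine Finset.sum_congr rfl fun k _ => ?_
    rw [Nat.testBit_succ, h1]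

/-- the condition on `c` -/
def Q (m t : ℕ) (e e' : Bool) (d : ℤ) (c : ℕ) : Prop :=
  ∃ i < 2 ^ m, t + c + e.toNat = i + 2 ^ m * e'.toNat ∧
      (wt m i : ℤ) - (wt m c : ℤ) + 2 * (e'.toNat : ℤ) - 2 * (e.toNat : ℤ) = d

theorem key (m t' c' : ℕ) (t0 c0 e e' i0 k : Bool) (d : ℤ)
    (h : t0.toNat + c0.toNat + e.toNat = i0.toNat + 2 * k.toNat) :
    Q (m + 1) (t0.toNat + 2 * t') e e' d (c0.toNat + 2 * c') ↔
      Q m t' k e' (d - (t0.toNat : ℤ) + (e.toNat : ℤ)) c' := by
  have hi0 : i0.toNat < 2 := by cases i0 <;> simp
  unfold Q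
  obtain ⟨Y, hY⟩ : ∃ Y, Y = 2 ^ m * e'.toNat := ⟨_, rfl⟩
  have hY2 : 2 ^ (m + 1) * e'.toNat = 2 * Y := by rw [hY, pow_succ]; ring
  have hP : 2 ^ (m + 1) = 2 * 2 ^ m := by rw [pow_succ]; ring
  rw [hY2, hP, ← hY]
  constructor
  · rintro ⟨i, hi, h1, h2⟩
    have hii : i = i0.toNat + 2 * (i / 2) := by omega
    refine ⟨i / 2, by omega, by omega, ?_⟩
    rw [hii, wt_succ, wt_succ] at h2
    push_cast at h2
    omega
  · rintro ⟨i, hi, h1, h2⟩
    refine ⟨i0.toNat + 2 * i, by omega, by omega, ?_⟩
    rw [wt_succ, wt_succ]
    push_cast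
    omega

theorem split (n : ℕ) (p : ℕ → Prop) [DecidablePred p] :
    ((range (2 * n)).filter p).card = ((range n).filter (fun c => p (0 + 2 * c))).card +
      ((range n).filter (fun c => p (1 + 2 * c))).card := by
  simp only [Finset.card_filter]
  induction n with
  | zero => simp
  | succ n ih =>
    rw [show 2 * (n + 1) = 2 * n + 1 + 1 by ring, Finset.sum_range_succ, Finset.sum_range_succ,
      Finset.sum_range_succ, Finset.sum_range_succ, ih, zero_add, add_comm 1 (2 * n)]
    ring

theorem bits_succ (m t' : ℕ) (b : Bool) : bits (m + 1) (b.toNat + 2 * t') = b :: bits m t' := by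
  have h1 : (b.toNat + 2 * t') / 2 = t' := by
    cases b with
    | false => rw [Bool.toNat_false]; omega
    | true => rw [Bool.toNat_true]; omega
  unfold bits
  rw [List.range_succ_eq_map, List.map_cons, List.map_map]
  congr 1
  · rw [Nat.testBit_zero]
    cases b with
    | false =>
      rw [Bool.toNat_false, decide_eq_false]
      omega
    | true =>
      rw [Bool.toNat_true, decide_eq_true]
      omega
  · refine List.map_congr_left fun k _ => ?_
    rw [Function.comp_apply, Nat.succ_eq_add_one, Nat.testBit_succ, h1]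

open Classical in
theorem carry_aux (m : ℕ) : ∀ (t : ℕ) (e e' : Bool) (d : ℤ), t < 2 ^ m →
    ((range (2 ^ m)).filter (Q m t e e' d)).card = cnt (bits m t) e e' d := by
  induction m with
  | zero =>
    intro t e e' d ht
    have ht0 : t = 0 := by rw [pow_zero] at ht; omega
    have hQ : Q 0 t e e' d 0 ↔ e = e' ∧ d = 0 := by
      unfold Q
      rw [ht0]
      constructor
      · rintro ⟨i, hi, h1, h2⟩
        rw [pow_zero] at hi h1
        rw [wt_zero, wt_zero] at h2
        have hi0 : i = 0 := by omega
        subst hi0
        have h3 : e.toNat = e'.toNat := by omega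
        refine ⟨?_, ?_⟩
        · cases e <;> cases e' <;> simp_all
        · rw [h3] at h2
          push_cast at h2
          omega
      · rintro ⟨rfl, rfl⟩
        refine ⟨0, by simp, by simp, ?_⟩
        rw [wt_zero]
        push_cast
        omega
    have hb : bits 0 t = [] := by simp [bits]
    rw [hb, pow_zero, Finset.range_one, Finset.filter_singleton, cnt]
    by_cases h : e = e' ∧ d = 0
    · rw [if_pos (hQ.mpr h), if_pos h, Finset.card_singleton]
    · rw [if_neg (fun h' => h (hQ.mp h')), if_neg h, Finset.card_empty]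
  | succ m ih =>
    intro t e e' d ht
    obtain ⟨b, t', htt⟩ : ∃ (b : Bool) (t' : ℕ), t = b.toNat + 2 * t' := by
      rcases Nat.mod_two_eq_zero_or_one t with h | h
      · exact ⟨false, t / 2, by rw [Bool.toNat_false]; omega⟩
      · exact ⟨true, t / 2, by rw [Bool.toNat_true]; omega⟩
    have hP : 2 ^ (m + 1) = 2 * 2 ^ m := by rw [pow_succ]; ring
    have ht' : t' < 2 ^ m := by rw [hP] at ht; omega
    rw [htt, bits_succ, hP, split]
    have h0 : ∀ (i0 k : Bool), b.toNat + e.toNat = i0.toNat + 2 * k.toNat →
        ((range (2 ^ m)).filter (fun c => Q (m + 1) (b.toNat + 2 * t') e e' d (0 + 2 * c))).card =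
          cnt (bits m t') k e' (d - (b.toNat : ℤ) + (e.toNat : ℤ)) := by
      intro i0 k h
      rw [← ih t' k e' _ ht']
      congr 1
      refine Finset.filter_congr fun c _ => ?_
      exact key m t' c b false e e' i0 k d (by rw [Bool.toNat_false]; omega)
    have h1 : ∀ (i0 k : Bool), b.toNat + 1 + e.toNat = i0.toNat + 2 * k.toNat →
        ((range (2 ^ m)).filter (fun c => Q (m + 1) (b.toNat + 2 * t') e e' d (1 + 2 * c))).card =
          cnt (bits m t') k e' (d - (b.toNat : ℤ) + (e.toNat : ℤ)) := by
      intro i0 k h
      rw [← ih t' k e' _ ht']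
      congr 1
      refine Finset.filter_congr fun c _ => ?_
      exact key m t' c b true e e' i0 k d (by rw [Bool.toNat_true]; omega)
    cases b with
    | true =>
      cases e with
      | false =>
        rw [h0 true false (by simp), h1 false true (by simp), cnt]
        simp
      | true =>
        rw [h0 false true (by simp), h1 true true (by simp), cnt]
        simp
        ring
    | false =>
      cases e with
      | false =>
        rw [h0 false false (by simp), h1 true false (by simp), cnt]
        simp
        ring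
      | true =>
        rw [h0 true false (by simp), h1 false true (by simp), cnt]
        simp

theorem carry : CARRY := by
  classical
  intro m t e e' d ht
  rw [← carry_aux m t e e' d ht]
  congr 1
  ext c
  rw [Finset.mem_filter, Finset.mem_filter]
  rfl

end Pool.Agent.W160.TD
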